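import Mathlib

set_option autoImplicit false

namespace Pool.Agent.Results.MP_b44203_nt.SignChanges

open Filter Finset Topology Polynomial

/-- The number of finite subsets of `{p ^ α * q ^ β}` with sum `n`. -/
noncomputable def f (p q n : ℕ) : ℕ :=
  {S : Finset ℕ | (∀ s ∈ S, ∃ α β : ℕ, s = p ^ α * q ^ β) ∧ ∑ s ∈ S, s = n}.ncard

section
variable {K : Type} [NormedField K] [CompleteSpace K] {ι : Type}

noncomputable def E (a : ι → ℕ) (z : K) : K := ∏' i, (1 + z ^ a i)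

omit [CompleteSpace K] in
lemma sumb (a : ι → ℕ) (ha : Function.Injective a) (z : K) (hz : ‖z‖ < 1) :
    Summable fun i => ‖z ^ a i‖ := by
  simp only [norm_pow]
  exact (summable_geometric_of_lt_one (norm_nonneg z) hz).comp_injective ha

lemma hp (a : ι → ℕ) (ha : Function.Injective a) (z : K) (hz : ‖z‖ < 1) :
    HasProd (fun i => 1 + z ^ a i) (E a z) :=
  (multipliable_one_add_of_summable (sumb a ha z hz)).hasProd

lemma hs (a : ι → ℕ) (ha : Function.Injective a) (z : K) (hz : ‖z‖ < 1) :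
    HasSum (fun n => (({s : Finset ι | ∑ i ∈ s, a i = n}.ncard : ℕ) : K) * z ^ n) (E a z) := by
  have h1 := summable_finsetProd_of_summable_norm (sumb a ha z hz)
  have h2 := h1.hasSum.tsum_fiberwise fun s => ∑ i ∈ s, a i
  rw [← tprod_one_add h1] at h2
  refine HasSum.congr_fun h2 fun n => ?_
  rw [tsum_congr (g := fun _ => z ^ n) fun s => by
    rw [prod_pow_eq_pow_sum]; exact congrArg _ s.2, tsum_const, nsmul_eq_mul]
  rfl

def wG (Q : ℕ) (β : ℕ) : ℕ := Q ^ β

def wT (P Q : ℕ) (i : ℕ × ℕ) : ℕ := P ^ i.1 * Q ^ i.2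

lemma wG_inj {Q : ℕ} (hQ : 2 ≤ Q) : Function.Injective (wG Q) := Nat.pow_right_injective hQ

lemma wT_inj {P Q : ℕ} (hP : 2 ≤ P) (hQ : 2 ≤ Q) (h : Nat.Coprime P Q) :
    Function.Injective (wT P Q) := by
  rintro ⟨a, b⟩ ⟨c, d⟩ e
  simp only [wT] at e
  have h1 : P ^ a ∣ P ^ c := (h.pow a d).dvd_of_dvd_mul_right ⟨_, e.symm⟩
  have h2 : P ^ c ∣ P ^ a := (h.pow c b).dvd_of_dvd_mul_right ⟨_, e⟩
  have h3 := Nat.pow_right_injective hP (Nat.dvd_antisymm h1 h2)
  subst h3
  rw [Nat.pow_right_injective hQ (Nat.eq_of_mul_eq_mul_left (by positivity) e)]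

lemma G_eq {Q : ℕ} (hQ : 2 ≤ Q) (z : K) (hz : ‖z‖ < 1) :
    E (wG Q) z = (1 + z) * E (wG Q) (z ^ Q) := by
  have h := hp _ (wG_inj hQ) (z ^ Q) (by rw [norm_pow]; exact pow_lt_one₀ (norm_nonneg _) hz (by omega))
  have e : (fun i => 1 + (z ^ Q) ^ wG Q i) = fun i => 1 + z ^ wG Q (i + 1) := by
    ext i; simp only [wG]; rw [← pow_mul, pow_succ']
  unfold E
  rw [tprod_eq_zero_mul' (e ▸ h.multipliable), e]
  simp [wG]

lemma T_eq {P Q : ℕ} (hP : 2 ≤ P) (hQ : 2 ≤ Q) (h : Nat.Coprime P Q) (z : K) (hz : ‖z‖ < 1) :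
    E (wT P Q) z = E (wG Q) z * E (wT P Q) (z ^ P) := by
  let e : ℕ ⊕ ℕ × ℕ ≃ ℕ × ℕ :=
    { toFun := Sum.elim (fun b => (0, b)) fun i => (i.1 + 1, i.2)
      invFun := fun i => match i with
        | (0, b) => Sum.inl b
        | (a + 1, b) => Sum.inr (a, b)
      left_inv := by rintro (b | ⟨a, b⟩) <;> rfl
      right_inv := by rintro ⟨_ | a, b⟩ <;> rfl }
  refine (hp _ (wT_inj hP hQ h) z hz).unique (e.hasProd_iff.mp (HasProd.sum ?_ ?_))
  · convert hp _ (wG_inj hQ) z hz using 2 with b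
    simp [e, wT, wG]
  · convert hp _ (wT_inj hP hQ h) (z ^ P)
      (by rw [norm_pow]; exact pow_lt_one₀ (norm_nonneg _) hz (by omega)) using 2 with i
    simp only [e, wT, Function.comp, Equiv.coe_fn_mk, Sum.elim_inr]
    rw [← pow_mul]; ring_nf

end

lemma E_mono {ι : Type} (a : ι → ℕ) (ha : Function.Injective a) {x y : ℝ} (h0 : 0 ≤ x)
    (h : x ≤ y) (h1 : y < 1) : E a x ≤ E a y :=
  le_of_tendsto_of_tendsto' (hp a ha x (by rw [Real.norm_of_nonneg h0]; linarith))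
    (hp a ha y (by rw [Real.norm_of_nonneg (h0.trans h)]; exact h1)) fun s =>
    prod_le_prod (fun i _ => by positivity) fun i _ => by gcongr

lemma one_le_E {ι : Type} (a : ι → ℕ) (ha : Function.Injective a) {x : ℝ} (h0 : 0 ≤ x)
    (h1 : x < 1) : 1 ≤ E a x :=
  ge_of_tendsto' (hp a ha x (by rw [Real.norm_of_nonneg h0]; exact h1)) fun s =>
    one_le_prod fun i _ => by have := pow_nonneg h0 (a i); linarith

lemma E_cast {ι : Type} (a : ι → ℕ) (ha : Function.Injective a) {x : ℝ} (h0 : 0 ≤ x)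
    (h1 : x < 1) : E a (x : ℂ) = (E a x : ℝ) := by
  have := (hp a ha x (by rw [Real.norm_of_nonneg h0]; exact h1)).map Complex.ofRealHom
    Complex.continuous_ofReal
  refine (hp a ha (x : ℂ) (by simpa [abs_of_nonneg h0] using h1)).unique ?_
  exact HasProd.congr_fun this fun i => by simp

lemma coef (c : ℕ → ℕ) (ε : ℝ) (hε : ε = 1 ∨ ε = -1) (n0 : ℕ)
    (h : ∀ n ≥ n0, 0 ≤ ε * ((c (n + 1) : ℝ) - c n)) : ∃ C : ℝ, 0 ≤ C ∧ ∀ (r t : ℝ) (z T : ℂ),
      0 ≤ r → r < 1 → ‖z‖ = r → 0 ≤ t → HasSum (fun n => (c n : ℝ) * r ^ n) t →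
      HasSum (fun n => (c n : ℂ) * z ^ n) T → ‖1 - z‖ * ‖T‖ ≤ (1 - r) * t + C := by
  refine ⟨2 * c 0 + ∑ n ∈ range n0, 2 * |(c (n + 1) : ℝ) - c n|, by positivity,
    fun r t z T r0 r1 hz t0 h1 h2 => ?_⟩
  have a1 := (((hasSum_nat_add_iff' 1).mpr h1).sub (h1.mul_left r)).mul_left ε
  have a2 := ((hasSum_nat_add_iff' 1).mpr h2).sub (h2.mul_left z)
  have a3 := hasSum_sum_of_ne_finset_zero (L := SummationFilter.unconditional _)
    (f := fun n => if n < n0 then 2 * |(c (n + 1) : ℝ) - c n| else 0) (s := range n0)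
    fun n hn => if_neg (by simpa using hn)
  rw [sum_congr rfl fun n hn => if_pos (mem_range.mp hn)] at a3
  have a4 := a2.norm_le_of_bounded (a1.add a3) fun n => by
    have e1 : (c (n + 1) : ℂ) * z ^ (n + 1) - z * (c n * z ^ n) =
        (((c (n + 1) : ℝ) - c n : ℝ) : ℂ) * z ^ (n + 1) := by push_cast; ring
    have e2 : ε * ((c (n + 1) : ℝ) * r ^ (n + 1) - r * (c n * r ^ n)) =
        ε * ((c (n + 1) : ℝ) - c n) * r ^ (n + 1) := by ring
    rw [e1, e2, norm_mul, norm_pow, hz, Complex.norm_real, Real.norm_eq_abs]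
    have b0 : 0 ≤ r ^ (n + 1) := by positivity
    have b1 : r ^ (n + 1) ≤ 1 := pow_le_one₀ r0 r1.le
    have b2 := h n
    generalize (c (n + 1) : ℝ) - c n = d at b2 ⊢
    have b3 := abs_nonneg d
    split_ifs with hn
    · have b4 : -|d| ≤ ε * d := by
        rcases hε with rfl | rfl
        · linarith [neg_abs_le d]
        · linarith [le_abs_self d]
      nlinarith
    · have := b2 (by omega)
      rcases hε with rfl | rfl
      · rw [abs_of_nonneg (by linarith)]; linarith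
      · rw [abs_of_nonpos (by linarith)]; linarith
  simp only [range_one, sum_singleton, pow_zero, mul_one] at a4
  have e3 : (1 - z) * T = (T - c 0 - z * T) + c 0 := by ring
  have a5 := norm_add_le (T - c 0 - z * T) (c 0)
  rw [← e3, norm_mul, Complex.norm_natCast] at a5
  have a6 : 0 ≤ (1 - r) * t := mul_nonneg (by linarith) t0
  have a7 : (0 : ℝ) ≤ c 0 := by positivity
  rcases hε with rfl | rfl <;> linarith

lemma main {P Q : ℕ} (hP : 2 ≤ P) (hQ : 3 ≤ Q) (h : Nat.Coprime P Q) (ho : Odd P) (ε : ℝ)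
    (hε : ε = 1 ∨ ε = -1) (n0 : ℕ) (c : ℕ → ℕ)
    (hc : ∀ n, c n = {s : Finset (ℕ × ℕ) | ∑ i ∈ s, wT P Q i = n}.ncard) :
    ¬ ∀ n ≥ n0, 0 ≤ ε * ((c (n + 1) : ℝ) - c n) := by
  classical
  intro hd
  obtain ⟨C, C0, hC⟩ := coef c ε hε n0 hd
  have iG := wG_inj (show 2 ≤ Q by omega)
  have iT := wT_inj hP (show 2 ≤ Q by omega) h
  have hζ := Complex.isPrimitiveRoot_exp P (by omega)
  set μ := nthRootsFinset P (1 : ℂ) with hμ
  have mem : ∀ ζ, ζ ∈ μ ↔ ζ ^ P = 1 := fun ζ => Polynomial.mem_nthRootsFinset (by omega) 1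
  have nrm : ∀ ζ ∈ μ, ‖ζ‖ = 1 := fun ζ hz =>
    Complex.norm_eq_one_of_pow_eq_one ((mem ζ).mp hz) (by omega)
  have key : ∀ r : ℝ, 0 ≤ r → r < 1 → ∀ η : ℝ, η ≤ 1 →
      (1 - r) * E (wG Q) r + C / E (wG Q) (r ^ P) ≤ η → 1 ≤ 2 ^ P * η := by
    intro r r0 r1 η η1 hη
    have rP0 : 0 ≤ r ^ P := by positivity
    have rP1 : r ^ P < 1 := pow_lt_one₀ r0 r1 (by omega)
    have nr : ∀ x : ℝ, 0 ≤ x → x < 1 → ‖x‖ < 1 := fun x h0 h1 => by rwa [Real.norm_of_nonneg h0]
    have nz : ∀ ζ ∈ μ, ‖ζ * r‖ = r := fun ζ hz => by simp [nrm ζ hz, abs_of_nonneg r0]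
    have g1 := one_le_E _ iG r0 r1
    have g2 := one_le_E _ iG rP0 rP1
    have R1 := one_le_E _ iT rP0 rP1
    have R2 : E (wG Q) (r ^ P) ≤ E (wT P Q) (r ^ P) := by
      rw [T_eq hP (by omega) h _ (nr _ rP0 rP1)]
      exact le_mul_of_one_le_right (by linarith)
        (one_le_E _ iT (by positivity) (pow_lt_one₀ rP0 rP1 (by omega)))
    have b1 : ∀ ζ ∈ μ, ‖1 - ζ * r‖ * ‖E (wG Q) (ζ * r)‖ ≤ η := fun ζ hz => by
      have a1 := hC r (E (wT P Q) r) (ζ * r) (E (wT P Q) (ζ * r)) r0 r1 (nz ζ hz) (by linarith [one_le_E _ iT r0 r1])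
        (by simpa only [hc] using hs _ iT r (nr r r0 r1))
        (by simpa only [hc] using hs _ iT (ζ * r) (by rwa [nz ζ hz]))
      rw [T_eq hP (by omega) h _ (nr r r0 r1), T_eq hP (by omega) h (ζ * r) (by rwa [nz ζ hz]),
        mul_pow, (mem ζ).mp hz, one_mul, ← Complex.ofReal_pow, E_cast _ iT rP0 rP1, norm_mul,
        Complex.norm_real, Real.norm_of_nonneg (by linarith)] at a1
      refine le_trans ?_ hη
      have a2 : C / E (wT P Q) (r ^ P) ≤ C / E (wG Q) (r ^ P) := by gcongr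
      refine le_trans ?_ (add_le_add le_rfl a2)
      refine le_of_mul_le_mul_right ?_ (show 0 < E (wT P Q) (r ^ P) by linarith)
      rw [add_mul, div_mul_cancel₀ _ (by linarith)]
      linarith
    have one : (1 : ℂ) ∈ μ := (mem 1).mpr (one_pow _)
    have b2 : ∏ ζ ∈ μ, E (wG Q) (ζ * r) = E (wG Q) ((r : ℂ) ^ P) := by
      refine (hasProd_prod (s := μ) fun (ζ : ℂ) hz =>
        hp _ iG (ζ * r) (by rwa [nz ζ hz])).unique ?_
      refine HasProd.congr_fun (hp _ iG ((r : ℂ) ^ P) (by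
        rw [← Complex.ofReal_pow, Complex.norm_real]; exact nr _ rP0 rP1)) fun β => ?_
      have := hζ.pow_add_pow_eq_prod_add_mul 1 ((r : ℂ) ^ wG Q β) ho
      rw [one_pow, ← pow_mul, mul_comm, pow_mul] at this
      rw [this]
      have m1 : ∀ ζ ∈ μ, ζ ^ wG Q β ∈ μ := fun ζ hz => by
        rw [mem, ← pow_mul, mul_comm, pow_mul, (mem ζ).mp hz, one_pow]
      have m2 : Set.InjOn (fun ζ : ℂ => ζ ^ wG Q β) μ := fun x hx y hy e => by
        have y0 : y ≠ 0 := fun e => by have := nrm y hy; simp [e] at this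
        have : (x / y) ^ (Nat.gcd P (Q ^ β)) = 1 := pow_gcd_eq_one.mpr
          ⟨by rw [div_pow, (mem x).mp hx, (mem y).mp hy, div_one],
            by rw [div_pow]; exact (div_eq_one_iff_eq (pow_ne_zero _ y0)).mpr e⟩
        rw [h.pow_right β, pow_one] at this
        exact (div_eq_one_iff_eq y0).mp this
      exact prod_nbij (fun ζ => ζ ^ wG Q β) m1 m2
        (Set.Finite.surjOn_iff_bijOn_of_mapsTo (finite_toSet μ) m1 |>.mpr
          ((Set.Finite.injOn_iff_bijOn_of_mapsTo (finite_toSet μ) m1).mp m2))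
        fun ζ _ => by rw [mul_pow]
    have b3 := hζ.pow_sub_pow_eq_prod_sub_mul 1 (r : ℂ) (by omega)
    have b4 : ∀ k, E (wG Q) r ≤ 2 ^ k * E (wG Q) (r ^ Q ^ k) := by
      intro k
      induction k with
      | zero => simp
      | succ k ih =>
        have x0 : 0 ≤ r ^ Q ^ k := by positivity
        have x1 : r ^ Q ^ k < 1 := pow_lt_one₀ r0 r1 (by positivity)
        rw [G_eq (by omega) _ (nr _ x0 x1), ← pow_mul, ← pow_succ] at ih
        have := one_le_E _ iG (x := r ^ Q ^ (k + 1)) (by positivity)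
          (pow_lt_one₀ r0 r1 (by positivity))
        refine ih.trans ?_
        rw [pow_succ 2 k, mul_assoc]
        gcongr
        linarith
    have b5 : E (wG Q) r ≤ 2 ^ P * E (wG Q) (r ^ P) := by
      refine (b4 P).trans ?_
      gcongr
      exact E_mono _ iG (by positivity) (pow_le_pow_of_le_one r0 r1.le
        (Nat.lt_pow_self (by omega)).le) rP1
    have b6 : ∏ ζ ∈ μ.erase 1, (‖1 - ζ * r‖ * ‖E (wG Q) (ζ * r)‖) ≤ η := by
      have ne : (μ.erase 1).Nonempty := ⟨_, mem_erase.mpr ⟨hζ.ne_one (by omega),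
        (mem _).mpr hζ.pow_eq_one⟩⟩
      have η0 : 0 ≤ η := le_trans (by positivity) (b1 1 one)
      refine (prod_le_prod (fun _ _ => by positivity) fun ζ hz => b1 ζ (mem_of_mem_erase hz)).trans ?_
      rw [prod_const]
      exact pow_le_of_le_one η0 η1 ne.card_pos.ne'
    rw [← mul_prod_erase μ _ one] at b2 b3
    have c2 := congrArg norm b2
    have c3 := congrArg norm b3
    rw [one_mul, ← Complex.ofReal_pow] at c2 c3
    rw [E_cast _ iG r0 r1, E_cast _ iG rP0 rP1, norm_mul, norm_prod, Complex.norm_real,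
      Complex.norm_real, Real.norm_of_nonneg (by linarith), Real.norm_of_nonneg (by linarith)] at c2
    rw [one_pow, ← Complex.ofReal_one, ← Complex.ofReal_sub, ← Complex.ofReal_sub, norm_mul,
      norm_prod, Complex.norm_real, Complex.norm_real, Real.norm_of_nonneg (by linarith),
      Real.norm_of_nonneg (by linarith), Complex.ofReal_one] at c3
    rw [prod_mul_distrib] at b6
    have d0 : r ^ P ≤ r := pow_le_of_le_one r0 r1.le (by omega)
    have d1 : 1 ≤ ∏ ζ ∈ μ.erase 1, ‖1 - ζ * r‖ :=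
      le_of_mul_le_mul_left (a := 1 - r) (by linarith) (by linarith)
    have d2 : 1 ≤ 2 ^ P * ∏ ζ ∈ μ.erase 1, ‖E (wG Q) (ζ * r)‖ :=
      le_of_mul_le_mul_left (a := E (wG Q) r) (by rw [mul_left_comm, c2]; linarith) (by linarith)
    refine d2.trans ?_
    gcongr
    exact le_trans (le_mul_of_one_le_left (prod_nonneg fun _ _ => norm_nonneg _) d1) b6
  set r : ℕ → ℝ := fun m => Real.exp (-(1 / (Q : ℝ) ^ m)) with hr
  have hQ' : (3 : ℝ) ≤ Q := by exact_mod_cast hQ
  have r0 : ∀ m, 0 ≤ r m := fun m => (Real.exp_pos _).le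
  have r1 : ∀ m, r m < 1 := fun m => Real.exp_lt_one_iff.mpr (neg_lt_zero.mpr (by positivity))
  have r2 : ∀ m, r (m + 1) ^ Q = r m := fun m => by
    simp only [hr]; rw [← Real.exp_nat_mul]; congr 1; field_simp; ring
  have r3 : ∀ m, 1 - r m ≤ (1 / 3) ^ m := fun m => by
    have := Real.add_one_le_exp (-(1 / (Q : ℝ) ^ m))
    have h2 : 1 / (Q : ℝ) ^ m ≤ (1 / 3) ^ m := by rw [one_div_pow]; gcongr
    simp only [hr]; linarith
  have r4 : ∀ m, Real.exp (-1) ≤ r m := fun m => Real.exp_le_exp.mpr (neg_le_neg (by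
    rw [div_le_one (by positivity)]; exact one_le_pow₀ (by linarith)))
  have s1 : ∀ m, E (wG Q) (r m) ≤ 2 ^ m * E (wG Q) (r 0) := by
    intro m
    induction m with
    | zero => simp
    | succ m ih =>
      rw [G_eq (by omega) _ (by rw [Real.norm_of_nonneg (r0 _)]; exact r1 _), r2, pow_succ' 2 m,
        mul_assoc]
      have := one_le_E _ iG (r0 m) (r1 m)
      gcongr
      linarith [r1 (m + 1)]
  have s2 : ∀ m, (1 + Real.exp (-1) ^ P) ^ m ≤ E (wG Q) (r m ^ P) := by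
    intro m
    induction m with
    | zero => simpa using one_le_E _ iG (pow_nonneg (r0 0) P) (pow_lt_one₀ (r0 0) (r1 0) (by omega))
    | succ m ih =>
      rw [G_eq (by omega) _ (by
        rw [Real.norm_of_nonneg (pow_nonneg (r0 _) P)]
        exact pow_lt_one₀ (r0 _) (r1 _) (by omega)), ← pow_mul, mul_comm P, pow_mul, r2, pow_succ']
      have := r0 (m + 1)
      gcongr
      exact r4 _
  have t1 := (tendsto_pow_atTop_nhds_zero_of_lt_one (r := 2 / 3) (by norm_num)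
    (by norm_num)).mul_const (E (wG Q) (r 0))
  have t2 := (tendsto_pow_atTop_atTop_of_one_lt (r := 1 + Real.exp (-1) ^ P)
    (lt_add_of_pos_right _ (by positivity))).const_div_atTop C
  have t3 := t1.add t2
  rw [zero_mul, zero_add] at t3
  obtain ⟨m, hm⟩ := (t3.eventually (ge_mem_nhds (show (0 : ℝ) < 1 / 2 ^ (P + 1) by positivity))).exists
  have := key (r m) (r0 m) (r1 m) (1 / 2 ^ (P + 1))
    (by rw [div_le_one (by positivity)]; exact one_le_pow₀ (by norm_num)) (by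
      refine le_trans (add_le_add ?_ ?_) hm
      · have := one_le_E _ iG (r0 m) (r1 m)
        calc _ ≤ (1 / 3) ^ m * (2 ^ m * E (wG Q) (r 0)) := by gcongr; exacts [r3 m, s1 m]
          _ = _ := by rw [← mul_assoc, ← mul_pow]; norm_num
      · gcongr; exact s2 m)
  rw [pow_succ] at this
  field_simp at this
  norm_num at this

lemma f_eq {P Q : ℕ} (hP : 2 ≤ P) (hQ : 2 ≤ Q) (h : Nat.Coprime P Q) (n : ℕ) :
    f P Q n = {s : Finset (ℕ × ℕ) | ∑ i ∈ s, wT P Q i = n}.ncard := by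
  symm
  refine Set.ncard_congr (fun s _ => s.map ⟨_, wT_inj hP hQ h⟩) (fun s hs => ⟨fun x hx => ?_, ?_⟩)
    (fun s t _ _ e => map_injective _ e) fun S hS => ?_
  · obtain ⟨i, -, rfl⟩ := mem_map.mp hx
    exact ⟨i.1, i.2, rfl⟩
  · rw [sum_map]; exact hs
  · have e : (S.preimage (wT P Q) (wT_inj hP hQ h).injOn).map ⟨_, wT_inj hP hQ h⟩ = S := by
      ext x
      simp only [Finset.mem_map, mem_preimage, Function.Embedding.coeFn_mk]
      refine ⟨by rintro ⟨i, hi, rfl⟩; exact hi, fun hx => ?_⟩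
      obtain ⟨a, b, rfl⟩ := hS.1 x hx
      exact ⟨(a, b), hx, rfl⟩
    refine ⟨_, ?_, e⟩
    have := hS.2
    rwa [← e, sum_map] at this

theorem result (p q : ℕ) (hp : 2 < p) (hpq : p < q) (h : Nat.Coprime p q) :
    {n : ℕ | f p q n < f p q (n + 1)}.Infinite ∧ {n : ℕ | f p q (n + 1) < f p q n}.Infinite := by
  have key : ∀ ε : ℝ, ε = 1 ∨ ε = -1 → ∀ n0,
      ¬ ∀ n ≥ n0, 0 ≤ ε * ((f p q (n + 1) : ℝ) - f p q n) := fun ε hε n0 => by
    rcases Nat.even_or_odd p with ho | ho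
    · have hq : Odd q := Nat.coprime_two_left.mp (Nat.Coprime.coprime_dvd_left ho.two_dvd h)
      refine main (P := q) (Q := p) (by omega) hp h.symm hq ε hε n0 _ fun n => ?_
      rw [← f_eq (by omega) (by omega) h.symm]
      unfold f
      congr 1
      ext S
      simp only [Set.mem_ofPred_eq]
      refine and_congr_left fun _ => forall₂_congr fun s _ => ?_
      constructor <;> rintro ⟨a, b, rfl⟩ <;> exact ⟨b, a, mul_comm _ _⟩
    · exact main (by omega) (by omega) h ho ε hε n0 _ (f_eq (by omega) (by omega) h)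
  constructor <;> refine Set.infinite_of_not_bddAbove fun ⟨n0, h0⟩ => ?_
  · refine key (-1) (Or.inr rfl) (n0 + 1) fun n hn => ?_
    have : f p q (n + 1) ≤ f p q n := not_lt.mp fun h => by have := h0 h; omega
    have : (f p q (n + 1) : ℝ) ≤ f p q n := by exact_mod_cast this
    linarith
  · refine key 1 (Or.inl rfl) (n0 + 1) fun n hn => ?_
    have : f p q n ≤ f p q (n + 1) := not_lt.mp fun h => by have := h0 h; omega
    have : (f p q n : ℝ) ≤ f p q (n + 1) := by exact_mod_cast this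
    linarith

end Pool.Agent.Results.MP_b44203_nt.SignChanges
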